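import Mathlib
import Pool.Agent.Helper13.LM.A
import Pool.Agent.Helper34.LM.Frames
import Pool.Agent.Helper42.LM.Pot
import Pool.Agent.Helper95.LM.C
import Pool.Agent.Helper58.LM.D
import Pool.Agent.Helper31.LM.E
import Pool.Agent.Helper31.LM.F

/-! Module LM-G: first consequences of local optimality. -/

set_option autoImplicit false

namespace Pool.Agent.Helper36.LM

open Module Finset

variable {K : Type} [Field K] {E : Type} [AddCommGroup E] [Module K E] [FiniteDimensional K E]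
  {ι : Type} [Fintype ι]

namespace Conf

section opt

variable (hK : Big K (2 + Fintype.card ι + 2 * Fintype.card ι ^ 2))

include hK

theorem L1 {C : Conf K E ι} {p : ℕ} (hp : p ≤ C.pot) (hI : ¬ C.Imp p 2) {i j : ι}
    {ci cj : Dual K E} {ψi ψj : E} {di dj : Dual K E} (hi : C.Fr i ci ψi di)
    (hj : C.Fr j cj ψj dj) (hij : ci ψj ≠ 0) : ∃ δ : K, δ ≠ 0 ∧ di - δ • dj ∈ C.R := by
  by_contra hcon
  push Not at hcon
  -- a generic `μ`
  obtain ⟨S, hS, hS'⟩ := good_lin (1 : K) (dj ψj) (Or.inl one_ne_zero)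
  classical
  obtain ⟨μ, hμ⟩ := hK (insert 0 S) (by
    have := Finset.card_insert_le (0 : K) S
    omega)
  have hμ0 : μ ≠ 0 := fun h => hμ (by rw [h]; exact Finset.mem_insert_self _ _)
  have h1 : 1 + μ * dj ψj ≠ 0 := by
    have := hS' μ (fun h => hμ (Finset.mem_insert_of_mem h))
    simp only at this
    rwa [mul_comm] at this
  have hbot := tw_bot hj h1 hi hμ0 hij hcon
  have hImp : (C.tw ψj dj μ h1).Imp p 1 := imp_of_bot hbot (C₀ := C) (tw_rnk h1).symm hp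
  exact hI (imp_of_tw hj μ h1 hImp)

/-- a good twist exists -/
theorem exists_twist {C : Conf K E ι} {p : ℕ} (hp : p ≤ C.pot) (hI : ¬ C.Imp p 2) {j : ι}
    {cj : Dual K E} {ψj : E} {dj : Dual K E} (hj : C.Fr j cj ψj dj) :
    ∃ μ : K, μ ≠ 0 ∧ ∃ h : 1 + μ * dj ψj ≠ 0, C.one ⊆ (C.tw ψj dj μ h).one ∧
      ∀ i ∈ C.one, ∀ k ∈ C.one, C.adj i k → (C.tw ψj dj μ h).adj i k := by
  have h := good_twist hj (fun i c' ψ' d' hi h0 => L1 hK hp hI hi hj h0)
  exact h.exists hK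

theorem L2 {C : Conf K E ι} {p : ℕ} (hp : p ≤ C.pot) (hI : ¬ C.Imp p 2) {i j : ι}
    {cj : Dual K E} {ψj : E} {dj : Dual K E} (hi : C.line i ≤ C.R)
    (hj : C.Fr j cj ψj dj) {f : Dual K E} (hf : f ∈ C.line i) : f ψj = 0 := by
  by_contra h0
  obtain ⟨μ, hμ, h, hone, hadj⟩ := exists_twist hK hp hI hj
  have h1 : i ∈ (C.tw ψj dj μ h).one := tw_two hj h hμ hi hf h0
  have h2 : i ∉ C.one := not_mem_one_of_le hi
  have hlt : C.one.card < (C.tw ψj dj μ h).one.card :=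
    Finset.card_lt_card ⟨hone, fun hsub => h2 (hsub h1)⟩
  have hpot : C.pot < (C.tw ψj dj μ h).pot := pot_lt_of_one (tw_rnk h).symm hlt
  exact hI (imp_of_tw hj μ h (imp_of_lt (lt_of_le_of_lt hp hpot) 1))

theorem L3 {C : Conf K E ι} {p : ℕ} (hp : p ≤ C.pot) (hI : ¬ C.Imp p 2) {i j l : ι}
    {ci cj cl : Dual K E} {ψi ψj ψl : E} {di dj dl : Dual K E} (hi : C.Fr i ci ψi di)
    (hj : C.Fr j cj ψj dj) (hl : C.Fr l cl ψl dl) (hij : ci ψj ≠ 0) (hil : ci ψl = 0)
    (hjl : cj ψl = 0) {δ : K} {η : E} (hη : C.T η = di - δ • dj) : C.T η ψl = 0 := by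
  by_contra h0
  obtain ⟨μ, hμ, h, hone, hadj⟩ := exists_twist hK hp hI hj
  have hδ : δ ≠ 0 := by
    rintro rfl
    apply hi.nmem
    rw [zero_smul, sub_zero] at hη
    exact ⟨η, hη⟩
  have hi' := tw_fr_adj hj h hi hμ hij hδ hη
  have hl1 : l ∈ (C.tw ψj dj μ h).one := hone hl.mem_one
  have hcl : cl ψj = 0 := by
    rw [← hl.eq, swap, hj.eq, hjl, neg_zero]
  have hlmem : (C.tw ψj dj μ h).T ψl ∈ (C.tw ψj dj μ h).line l := by
    rw [mem_tw_line]
    refine ⟨cl, ?_, ?_⟩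
    · rw [hl.span]
      exact Submodule.subset_span (Set.mem_insert _ _)
    · rw [hcl, mul_zero, zero_smul, add_zero]
      exact hl.eq
  have hlne : (C.tw ψj dj μ h).T ψl ≠ 0 := by
    have e : (C.tw ψj dj μ h).T ψl = cl := hl.eq
    rw [e]
    exact hl.ne
  obtain ⟨d'', hl'⟩ := fr_of_mem hl1 hlmem hlne
  have hadj' : (C.tw ψj dj μ h).adj i l := by
    rw [adj_iff hi' hl', LinearMap.add_apply, LinearMap.smul_apply, hil, smul_zero, zero_add]
    exact h0
  have hnadj : ¬ C.adj i l := by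
    rw [adj_iff hi hl, not_not]
    exact hil
  have hpot : C.pot < (C.tw ψj dj μ h).pot :=
    pot_lt_of (tw_rnk h).symm hone hadj hi.mem_one hl.mem_one hnadj hadj'
  exact hI (imp_of_tw hj μ h (imp_of_lt (lt_of_le_of_lt hp hpot) 1))

end opt

end Conf

end Pool.Agent.Helper36.LM
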