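import Mathlib
import Pool.Agent.Helper36.LM.Mat
import Pool.Agent.Helper21.LM.M1
import Pool.Agent.Helper37.Pin.ModB
import Pool.Agent.Helper28.LM.Adj

/-! Module LM-M3: the potential in matrix form and local maxima. -/

set_option autoImplicit false

namespace Pool.Agent.Helper36.LM

open Module Finset Matrix

variable {K D ι : Type} [Field K] [Fintype D] [DecidableEq D] [Fintype ι]

theorem conf_pot (a b : ι → D → K) (x : ι → K)
    (h : ∀ i (α β : K), α • a i + β • b i = 0 → α = 0 ∧ β = 0) :
    (conf a b x h).pot = mpot a b x := by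
  classical
  have h1 : (conf a b x h).num = mnum a b x := by
    unfold Conf.num mnum
    rw [conf_one]
    refine congrArg Finset.card (Finset.filter_congr fun p hp => ?_)
    rw [Finset.mem_product] at hp
    exact conf_adj a b x h (by rw [conf_one]; exact hp.1) (by rw [conf_one]; exact hp.2)
  unfold Conf.pot mpot
  rw [h1, conf_rnk, conf_one]

theorem mpot_le (a b : ι → D → K) (x : ι → K) :
    mpot a b x ≤ (Fintype.card D * (Fintype.card ι + 1) + Fintype.card ι) *
      (Fintype.card ι ^ 2 + 1) + Fintype.card ι ^ 2 := by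
  have h1 : (tmat a b x).rank ≤ Fintype.card D := Matrix.rank_le_card_width _
  have h2 : (mone a b x).card ≤ Fintype.card ι := Finset.card_le_univ _
  have h3 : mnum a b x ≤ Fintype.card ι ^ 2 := by
    unfold mnum
    refine (Finset.card_filter_le _ _).trans ?_
    rw [Finset.card_product, sq]
    exact Nat.mul_le_mul h2 h2
  unfold mpot
  refine add_le_add (Nat.mul_le_mul_right _ (add_le_add (Nat.mul_le_mul_right _ h1) h2)) h3

open Classical in
/-- at a local maximum of the potential the rank is twice the parity number; `hopt` is the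
statement of the main theorem `Conf.opt` (module LM-L) for configurations on `D → K` -/
theorem local_max_of (hopt : ∀ C : Conf K (D → K) ι, ¬ C.Imp C.pot 3 → ∀ Z : Finset ι,
      finrank K (⨆ i ∈ Z, C.line i : Submodule K (Dual K (D → K))) = 2 * Z.card →
        2 * Z.card ≤ C.rnk) (a b : ι → D → K)
    (h : ∀ i (α β : K), α • a i + β • b i = 0 → α = 0 ∧ β = 0) (x : ι → K)
    (hx : ∀ y : ι → K, (Finset.univ.filter (fun i => y i ≠ x i)).card ≤ 3 →
      mpot a b y ≤ mpot a b x) :
    (∀ Z : Finset ι, LinearIndependent K (fun i : Z × Fin 2 => ![a i.1, b i.1] i.2) →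
      2 * Z.card ≤ (tmat a b x).rank) ∧
    ∃ Z : Finset ι, LinearIndependent K (fun i : Z × Fin 2 => ![a i.1, b i.1] i.2) ∧
      2 * Z.card = (tmat a b x).rank := by
  have hI : ¬ (conf a b x h).Imp (conf a b x h).pot 3 := by
    rintro ⟨y, hy, hlt⟩
    rw [conf_move, conf_pot, conf_pot] at hlt
    have h1 := hx (x + y) (by
      refine le_trans (le_of_eq ?_) hy
      congr 1
      refine Finset.filter_congr fun i _ => ?_
      rw [Pi.add_apply]
      simp)
    omega
  have first : ∀ Z : Finset ι, LinearIndependent K (fun i : Z × Fin 2 => ![a i.1, b i.1] i.2) →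
      2 * Z.card ≤ (tmat a b x).rank := by
    intro Z hZ
    rw [← conf_rnk a b x h]
    refine hopt _ hI Z ?_
    -- independence in the dual space
    have h1 : LinearIndependent K (fun i : Z × Fin 2 => fnl (![a i.1, b i.1] i.2)) :=
      hZ.map' (dotProductEquiv K D).toLinearMap (LinearEquiv.ker _)
    have h2 := finrank_span_eq_card h1
    rw [Fintype.card_prod, Fintype.card_coe, Fintype.card_fin, mul_comm] at h2
    rw [← h2]
    have hsp : (⨆ i ∈ Z, (conf a b x h).line i : Submodule K (Dual K (D → K))) =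
        Submodule.span K (Set.range (fun i : Z × Fin 2 => fnl (![a i.1, b i.1] i.2))) := by
      apply le_antisymm
      · refine iSup₂_le fun i hi => ?_
        refine Submodule.span_mono ?_
        rintro f (rfl | rfl)
        · exact ⟨(⟨i, hi⟩, 0), rfl⟩
        · exact ⟨(⟨i, hi⟩, 1), rfl⟩
      · rw [Submodule.span_le]
        rintro f ⟨⟨⟨i, hi⟩, j⟩, rfl⟩
        have hle : (conf a b x h).line i ≤ ⨆ i ∈ Z, (conf a b x h).line i :=
          le_iSup₂_of_le i hi le_rfl
        apply hle
        apply Submodule.subset_span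
        fin_cases j
        · exact Or.inl rfl
        · exact Or.inr rfl
    rw [hsp]
  refine ⟨first, ?_⟩
  obtain ⟨Z, -, hI, hr⟩ := Pool.Agent.Helper36.Pin.parity_upper (Finset.univ : Finset ι)
    (fun i => ![x i • a i, b i])
  have h1 : tmat a b x = ∑ v ∈ (Finset.univ : Finset ι),
      (Matrix.vecMulVec ((![x v • a v, b v] : Fin 2 → D → K) 0)
        ((![x v • a v, b v] : Fin 2 → D → K) 1) -
        Matrix.vecMulVec ((![x v • a v, b v] : Fin 2 → D → K) 1)
          ((![x v • a v, b v] : Fin 2 → D → K) 0)) := by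
    unfold tmat
    refine Finset.sum_congr rfl fun i _ => ?_
    ext u w
    simp only [Matrix.smul_apply, Matrix.sub_apply, Matrix.vecMulVec_apply, smul_eq_mul,
      Matrix.cons_val_zero, Matrix.cons_val_one, Pi.smul_apply]
    ring
  rw [← h1] at hr
  have hxZ : ∀ i ∈ Z, x i ≠ 0 := by
    intro i hi h0
    have := hI.ne_zero (⟨⟨i, hi⟩, 0⟩ : Z × Fin 2)
    apply this
    simp [h0]
  have h2 := hI.units_smul (fun i : Z × Fin 2 =>
    if i.2 = 0 then (Units.mk0 (x i.1) (hxZ i.1.1 i.1.2))⁻¹ else 1)
  have h3 : (fun i : Z × Fin 2 => (![a i.1, b i.1] : Fin 2 → D → K) i.2) =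
      ((fun i : Z × Fin 2 =>
        if i.2 = 0 then (Units.mk0 (x i.1) (hxZ i.1.1 i.1.2))⁻¹ else 1) •
          fun i : Z × Fin 2 => (![x i.1 • a i.1, b i.1] : Fin 2 → D → K) i.2) := by
    funext ⟨⟨i, hi⟩, j⟩
    fin_cases j
    · simp [Units.smul_def, hxZ i hi, smul_smul]
    · simp [Units.smul_def]
  have h4 : LinearIndependent K (fun i : Z × Fin 2 => ![a i.1, b i.1] i.2) := by
    rw [h3]
    exact h2
  exact ⟨Z, h4, le_antisymm (first Z h4) hr⟩

end Pool.Agent.Helper36.LM
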